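import Pool.Agent.TH87.BD.Basic

/-! # Two forests of bounded diameter from two potentials (helper80, part [D] of helper33's proof
of S09049) -/

set_option autoImplicit false

namespace Pool.Agent.L7h80.BD

open SimpleGraph Pool.Agent.TH87.BD

/-- **[D]** -/
theorem assemble {V : Type} [Fintype V] {T : Type} [LinearOrder T] [Fintype T] (G : SimpleGraph V)
    (par p : V → V)
    (hG : ∀ u v, G.Adj u v ↔ u ≠ v ∧ (par u = v ∨ par v = u ∨ p u = v ∨ p v = u))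
    (φ₁ φ₂ : V → T)
    (h : ∀ v, ((p v ≠ v → φ₁ v < φ₁ (p v)) ∧ (par v ≠ v → φ₂ v < φ₂ (par v))) ∨
      ((p v ≠ v → φ₂ v < φ₂ (p v)) ∧ (par v ≠ v → φ₁ v < φ₁ (par v)))) :
    ∃ H₁ H₂ : SimpleGraph V, H₁ ⊔ H₂ = G ∧ Disjoint H₁ H₂ ∧ H₁.IsAcyclic ∧ H₂.IsAcyclic ∧
      (∀ u v : V, H₁.Reachable u v → H₁.dist u v ≤ 2 * Fintype.card T) ∧
      (∀ u v : V, H₂.Reachable u v → H₂.dist u v ≤ 2 * Fintype.card T) := by
  classical
  obtain ⟨q₁, q₂, hq, h1, h2⟩ : ∃ q₁ q₂ : V → V,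
      (∀ v, (q₁ v = p v ∧ q₂ v = par v) ∨ (q₁ v = par v ∧ q₂ v = p v)) ∧
      (∀ v, q₁ v ≠ v → φ₁ v < φ₁ (q₁ v)) ∧ (∀ v, q₂ v ≠ v → φ₂ v < φ₂ (q₂ v)) := by
    refine ⟨fun v => if (p v ≠ v → φ₁ v < φ₁ (p v)) ∧ (par v ≠ v → φ₂ v < φ₂ (par v)) then p v
      else par v, fun v => if (p v ≠ v → φ₁ v < φ₁ (p v)) ∧ (par v ≠ v → φ₂ v < φ₂ (par v))
      then par v else p v, fun v => ?_, fun v => ?_, fun v => ?_⟩
    · by_cases hc : (p v ≠ v → φ₁ v < φ₁ (p v)) ∧ (par v ≠ v → φ₂ v < φ₂ (par v))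
      · left; simp only [if_pos hc, and_self]
      · right; simp only [if_neg hc, and_self]
    · by_cases hc : (p v ≠ v → φ₁ v < φ₁ (p v)) ∧ (par v ≠ v → φ₂ v < φ₂ (par v))
      · simp only [if_pos hc]; exact hc.1
      · simp only [if_neg hc]; exact ((h v).resolve_left hc).2
    · by_cases hc : (p v ≠ v → φ₁ v < φ₁ (p v)) ∧ (par v ≠ v → φ₂ v < φ₂ (par v))
      · simp only [if_pos hc]; exact hc.2
      · simp only [if_neg hc]; exact ((h v).resolve_left hc).1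
  have hG' : ∀ u v, G.Adj u v ↔ u ≠ v ∧ (q₁ u = v ∨ q₁ v = u ∨ q₂ u = v ∨ q₂ v = u) := by
    intro u v
    rw [hG]
    refine and_congr_right fun _ => ?_
    rcases hq u with ⟨a, b⟩ | ⟨a, b⟩ <;> rcases hq v with ⟨c, d⟩ | ⟨c, d⟩ <;>
      rw [a, b, c, d] <;> tauto
  let H₁ : SimpleGraph V :=
    { Adj := fun u v => u ≠ v ∧ (q₁ u = v ∨ q₁ v = u)
      symm := ⟨fun u v h => ⟨h.1.symm, h.2.symm⟩⟩
      loopless := ⟨fun u h => h.1 rfl⟩ }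
  let H₂ : SimpleGraph V :=
    { Adj := fun u v => (u ≠ v ∧ (q₂ u = v ∨ q₂ v = u)) ∧ ¬ H₁.Adj u v
      symm := ⟨fun u v h => ⟨⟨h.1.1.symm, h.1.2.symm⟩, fun h' => h.2 h'.symm⟩⟩
      loopless := ⟨fun u h => h.1.1 rfl⟩ }
  have hH₁ : ∀ u v, H₁.Adj u v ↔ u ≠ v ∧ (q₁ u = v ∨ q₁ v = u) := fun u v => Iff.rfl
  have hH₂ : ∀ u v, H₂.Adj u v ↔ (u ≠ v ∧ (q₂ u = v ∨ q₂ v = u)) ∧ ¬ H₁.Adj u v :=
    fun u v => Iff.rfl
  let p₁ : V → Option V := fun v => if q₁ v = v then none else some (q₁ v)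
  let p₂ : V → Option V := fun v => if q₂ v = v ∨ H₁.Adj v (q₂ v) then none else some (q₂ v)
  have hp₁ : ∀ x y, p₁ x = some y → q₁ x = y ∧ q₁ x ≠ x := by
    intro x y hxy
    simp only [p₁] at hxy
    split_ifs at hxy with hc
    exact ⟨Option.some.inj hxy, hc⟩
  have hp₂ : ∀ x y, p₂ x = some y → q₂ x = y ∧ q₂ x ≠ x ∧ ¬ H₁.Adj x (q₂ x) := by
    intro x y hxy
    simp only [p₂] at hxy
    split_ifs at hxy with hc
    push Not at hc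
    exact ⟨Option.some.inj hxy, hc⟩
  have a1 : ∀ x y, p₁ x = some y → φ₁ x < φ₁ y := by
    intro x y hxy
    obtain ⟨rfl, hne⟩ := hp₁ x y hxy
    exact h1 x hne
  have a2 : ∀ x y, p₂ x = some y → φ₂ x < φ₂ y := by
    intro x y hxy
    obtain ⟨rfl, hne, -⟩ := hp₂ x y hxy
    exact h2 x hne
  have b1 : ∀ x y, H₁.Adj x y → p₁ x = some y ∨ p₁ y = some x := by
    intro x y hxy
    rw [hH₁] at hxy
    rcases hxy with ⟨hne, h3 | h3⟩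
    · left
      simp only [p₁]
      rw [if_neg (by rw [h3]; exact hne.symm), h3]
    · right
      simp only [p₁]
      rw [if_neg (by rw [h3]; exact hne), h3]
  have b2 : ∀ x y, H₂.Adj x y → p₂ x = some y ∨ p₂ y = some x := by
    intro x y hxy
    rw [hH₂] at hxy
    obtain ⟨⟨hne, h3 | h3⟩, h4⟩ := hxy
    · left
      simp only [p₂]
      rw [if_neg (by rw [h3]; exact not_or.2 ⟨hne.symm, h4⟩), h3]
    · right
      simp only [p₂]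
      rw [if_neg (by rw [h3]; exact not_or.2 ⟨hne, fun h5 => h4 h5.symm⟩), h3]
  have c1 : ∀ x y, p₁ x = some y → H₁.Adj x y := by
    intro x y hxy
    obtain ⟨rfl, hne⟩ := hp₁ x y hxy
    exact (hH₁ _ _).2 ⟨hne.symm, Or.inl rfl⟩
  have c2 : ∀ x y, p₂ x = some y → H₂.Adj x y := by
    intro x y hxy
    obtain ⟨rfl, hne, h3⟩ := hp₂ x y hxy
    exact (hH₂ _ _).2 ⟨⟨hne.symm, Or.inl rfl⟩, h3⟩
  refine ⟨H₁, H₂, ?_, ?_, acyclic_of_pot p₁ φ₁ a1 b1, acyclic_of_pot p₂ φ₂ a2 b2,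
    dist_of_pot p₁ φ₁ a1 b1 c1, dist_of_pot p₂ φ₂ a2 b2 c2⟩
  · ext u v
    rw [SimpleGraph.sup_adj, hG', hH₂, hH₁]
    tauto
  · rw [disjoint_iff, eq_bot_iff]
    intro u v huv
    rw [SimpleGraph.inf_adj, hH₂] at huv
    exact absurd huv.1 huv.2.2

end Pool.Agent.L7h80.BD
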