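import Pool.Agent.L7h33.BD.Fun

/-! # Two potentials for a rearranged forest (helper80, part [B] of helper33's proof of S09049) -/

set_option autoImplicit false

namespace Pool.Agent.L7h80.BD

open Pool.Agent.L7h33.BD

/-- letters -/
inductive Lt : Type
  | N (s : Fin 3)
  | H (b : Bool) (s : Fin 3)
  | E

/-- the order of the symbols `σ` inside a type -/
def fl (b : Bool) (s : Fin 3) : ℕ := if b then s.val else 2 - s.val

/-- rank of a letter in the order `b`: `H (!b) < N < E < H b` -/
def rk (b : Bool) : Lt → ℕ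
  | Lt.N s => 3 + fl b s
  | Lt.H b' s => if b' = b then 7 + fl b s else fl b s
  | Lt.E => 6

theorem fl_le (b : Bool) (s : Fin 3) : fl b s ≤ 2 := by
  unfold fl; split <;> omega

theorem rk_lt (b : Bool) (α : Lt) : rk b α < 10 := by
  cases α with
  | N s => have := fl_le b s; simp only [rk]; omega
  | H b' s => have := fl_le b s; simp only [rk]; split <;> omega
  | E => simp only [rk]; omega

theorem fl_or {s t : Fin 3} (h : s ≠ t) : fl true s < fl true t ∨ fl false s < fl false t := by
  unfold fl
  simp only [if_true]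
  have h1 : s.val ≠ t.val := fun h2 => h (Fin.ext h2)
  have h2 : (false = true) = False := by simp
  simp only [h2, if_false]
  omega

theorem rk_or {α β : Lt} (h1 : α ≠ Lt.E) (h2 : α ≠ β) :
    rk true α < rk true β ∨ rk false α < rk false β := by
  cases α with
  | E => exact absurd rfl h1
  | N s =>
    have a1 := fl_le true s
    have a2 := fl_le false s
    cases β with
    | E => left; simp only [rk]; omega
    | N t =>
      have h3 : s ≠ t := fun h => h2 (by rw [h])
      rcases fl_or h3 with h | h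
      · left; simp only [rk]; omega
      · right; simp only [rk]; omega
    | H b t =>
      cases b
      · right; simp only [rk, if_true]; omega
      · left; simp only [rk, if_true]; omega
  | H b s =>
    have a1 := fl_le true s
    have a2 := fl_le false s
    cases β with
    | E =>
      cases b
      · left; simp [rk]; omega
      · right; simp [rk]; omega
    | N t =>
      cases b
      · left; simp [rk]; omega
      · right; simp [rk]; omega
    | H b' t =>
      cases b <;> cases b'
      · have h3 : s ≠ t := fun h => h2 (by rw [h])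
        rcases fl_or h3 with h | h
        · left; simp [rk]; omega
        · right; simp [rk]; omega
      · left; simp [rk]; omega
      · right; simp [rk]; omega
      · have h3 : s ≠ t := fun h => h2 (by rw [h])
        rcases fl_or h3 with h | h
        · left; simp [rk]; omega
        · right; simp [rk]; omega

theorem rk_N_E (b : Bool) (s : Fin 3) : rk b (Lt.N s) < rk b Lt.E := by
  have := fl_le b s
  simp only [rk]; omega

theorem rk_E_H (b : Bool) (s : Fin 3) : rk b Lt.E < rk b (Lt.H b s) := by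
  simp only [rk, if_true]; omega

theorem rk_H_E (b : Bool) (s : Fin 3) : rk (!b) (Lt.H b s) < rk (!b) Lt.E := by
  have := fl_le (!b) s
  cases b <;> simp [rk] <;> simp at this <;> omega

theorem rk_H_N (b : Bool) (s t : Fin 3) : rk (!b) (Lt.H b s) < rk (!b) (Lt.N t) := by
  have := fl_le (!b) s
  cases b <;> simp [rk] <;> simp at this <;> omega

section words

variable {V : Type} (ρ : V → V) (l : V → ℕ) (Cut : Set V) (own : V → V) (σ : V → Fin 3)

/-- the ancestor at level `i` -/
def anc (i : ℕ) (v : V) : V := ρ^[l v - i] v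

open Classical in
/-- the letter of a vertex -/
noncomputable def ltr (c : V → Bool) (w : V) : Lt :=
  if w ∈ Cut then Lt.H (c (own w)) (σ w) else Lt.N (σ w)

/-- the word of a vertex -/
noncomputable def wd (c : V → Bool) (v : V) (i : ℕ) : Lt :=
  if i ≤ l v then ltr Cut own σ c (anc ρ l i v) else Lt.E

variable {ρ l Cut own σ}

theorem ltr_ne (c : V → Bool) (w : V) : ltr Cut own σ c w ≠ Lt.E := by
  unfold ltr; split <;> simp

theorem wd_ne {c : V → Bool} {v : V} {i : ℕ} (h : i ≤ l v) : wd ρ l Cut own σ c v i ≠ Lt.E := by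
  unfold wd; rw [if_pos h]; exact ltr_ne _ _

theorem wd_gt {c : V → Bool} {v : V} {i : ℕ} (h : l v < i) : wd ρ l Cut own σ c v i = Lt.E := by
  unfold wd; rw [if_neg (by omega)]

theorem anc_self (v : V) : anc ρ l (l v) v = v := by
  unfold anc; rw [Nat.sub_self]; rfl

theorem wd_self {c : V → Bool} (v : V) : wd ρ l Cut own σ c v (l v) = ltr Cut own σ c v := by
  unfold wd; rw [if_pos le_rfl, anc_self]

variable (hl : ∀ v, ρ v ≠ v → l v = l (ρ v) + 1)

include hl

theorem lev_iter (v : V) (n : ℕ) : l (ρ^[n] v) ≤ l v ∧ ∀ i ≤ l (ρ^[n] v),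
    anc ρ l i v = anc ρ l i (ρ^[n] v) := by
  induction n generalizing v with
  | zero => exact ⟨le_rfl, fun _ _ => rfl⟩
  | succ n ih =>
    rw [Function.iterate_succ_apply]
    by_cases h : ρ v = v
    · rw [h]; exact ih v
    · have h1 := hl v h
      obtain ⟨h2, h3⟩ := ih (ρ v)
      refine ⟨by omega, fun i hi => ?_⟩
      rw [← h3 i hi]
      unfold anc
      have h4 : l v - i = (l (ρ v) - i) + 1 := by omega
      rw [h4, Function.iterate_succ_apply]

theorem lev_anc {v y : V} (h : Anc ρ v y) : l y ≤ l v ∧ ∀ i ≤ l y, anc ρ l i v = anc ρ l i y := by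
  obtain ⟨n, rfl⟩ := h
  exact lev_iter hl v n

theorem wd_anc (c : V → Bool) {v y : V} (h : Anc ρ v y) (i : ℕ) (hi : i ≤ l y) :
    wd ρ l Cut own σ c v i = wd ρ l Cut own σ c y i := by
  obtain ⟨h1, h2⟩ := lev_anc hl h
  unfold wd
  rw [if_pos hi, if_pos (hi.trans h1), h2 i hi]

variable (hl0 : ∀ v, ρ v = v → l v = 0)

include hl0

theorem lev_of_anc (v : V) (i : ℕ) (hi : i ≤ l v) : l (anc ρ l i v) = i := by
  have key : ∀ n, ∀ v, l v - i = n → i ≤ l v → l (ρ^[n] v) = i := by
    intro n
    induction n with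
    | zero => intro v h1 h2; show l v = i; omega
    | succ n ih =>
      intro v h1 h2
      rw [Function.iterate_succ_apply]
      by_cases h : ρ v = v
      · have := hl0 v h
        omega
      · have := hl v h
        exact ih (ρ v) (by omega) (by omega)
  exact key _ v rfl hi

omit hl0 in
theorem own_spec (hN : ∀ v, v ∉ Cut → own v = v)
    (hC : ∀ v, v ∈ Cut → ρ v ≠ v ∧ own (ρ v) = own v) (v : V) :
    own v ∉ Cut ∧ Anc ρ v (own v) ∧ (v ∈ Cut → l (own v) < l v) := by
  have key : ∀ n, ∀ v, l v ≤ n →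
      own v ∉ Cut ∧ Anc ρ v (own v) ∧ (v ∈ Cut → l (own v) < l v) := by
    intro n
    induction n with
    | zero =>
      intro v hv
      by_cases h : v ∈ Cut
      · have := hl v (hC v h).1
        omega
      · rw [hN v h]
        exact ⟨h, Anc.refl ρ v, fun h' => absurd h' h⟩
    | succ n ih =>
      intro v hv
      by_cases h : v ∈ Cut
      · obtain ⟨h1, h2⟩ := hC v h
        have h3 := hl v h1
        obtain ⟨g1, g2, g3⟩ := ih (ρ v) (by omega)
        rw [h2] at g1 g2 g3
        refine ⟨g1, g2.of_step, fun _ => ?_⟩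
        have := (lev_anc hl g2).1
        omega
      · rw [hN v h]
        exact ⟨h, Anc.refl ρ v, fun h' => absurd h' h⟩
  exact key _ v le_rfl

theorem wd_congr (hN : ∀ v, v ∉ Cut → own v = v)
    (hC : ∀ v, v ∈ Cut → ρ v ≠ v ∧ own (ρ v) = own v) {c c' : V → Bool} {n : ℕ}
    (h : ∀ u, l u < n → c u = c' u) (v : V) (i : ℕ) (hi : i ≤ n) :
    wd ρ l Cut own σ c v i = wd ρ l Cut own σ c' v i := by
  unfold wd
  split_ifs with h1
  · unfold ltr
    split_ifs with h2
    · have h3 := (own_spec hl hN hC (anc ρ l i v)).2.2 h2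
      rw [lev_of_anc hl hl0 v i h1] at h3
      rw [h _ (by omega)]
    · rfl
  · rfl

/-- the choice of the classes -/
theorem exists_class (hN : ∀ v, v ∉ Cut → own v = v)
    (hC : ∀ v, v ∈ Cut → ρ v ≠ v ∧ own (ρ v) = own v) (tgt : V → V)
    (hσ : ∀ a, a ∉ Cut → l a ≤ l (tgt a) → anc ρ l (l a) (tgt a) ≠ a →
      σ a ≠ σ (anc ρ l (l a) (tgt a))) (n : ℕ) :
    ∃ c : V → Bool, ∀ a, l a < n → a ∉ Cut → ¬ Anc ρ (tgt a) a → ∃ i ≤ l a,
      (∀ j < i, wd ρ l Cut own σ c a j = wd ρ l Cut own σ c (tgt a) j) ∧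
      rk (c a) (wd ρ l Cut own σ c a i) < rk (c a) (wd ρ l Cut own σ c (tgt a) i) := by
  classical
  induction n with
  | zero => exact ⟨fun _ => true, fun a h => absurd h (Nat.not_lt_zero _)⟩
  | succ n ih =>
    obtain ⟨c, hc⟩ := ih
    -- the first difference
    have hd : ∀ a, l a = n → a ∉ Cut → ¬ Anc ρ (tgt a) a → ∃ d : Bool, ∃ i ≤ l a,
        (∀ j < i, wd ρ l Cut own σ c a j = wd ρ l Cut own σ c (tgt a) j) ∧
        rk d (wd ρ l Cut own σ c a i) < rk d (wd ρ l Cut own σ c (tgt a) i) := by
      intro a _ h2 h3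
      have hex : ∃ i, i ≤ l a ∧ wd ρ l Cut own σ c a i ≠ wd ρ l Cut own σ c (tgt a) i := by
        by_cases h4 : l a ≤ l (tgt a)
        · refine ⟨l a, le_rfl, fun h5 => ?_⟩
          have h6 : anc ρ l (l a) (tgt a) ≠ a := by
            intro h7
            exact h3 ⟨_, h7⟩
          have h8 := hσ a h2 h4 h6
          rw [wd_self] at h5
          unfold wd at h5
          rw [if_pos h4] at h5
          unfold ltr at h5
          rw [if_neg h2] at h5
          split_ifs at h5
          injection h5 with h5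
          exact h8 h5
        · refine ⟨l (tgt a) + 1, by omega, fun h5 => ?_⟩
          rw [wd_gt (Nat.lt_succ_self _)] at h5
          exact wd_ne (by omega) h5
      obtain ⟨h4, h5⟩ := Nat.find_spec hex
      have h6 : ∀ j < Nat.find hex,
          wd ρ l Cut own σ c a j = wd ρ l Cut own σ c (tgt a) j := by
        intro j hj
        by_contra h7
        exact Nat.find_min hex hj ⟨by omega, h7⟩
      rcases rk_or (wd_ne h4) h5 with h7 | h7
      · exact ⟨true, _, h4, h6, h7⟩
      · exact ⟨false, _, h4, h6, h7⟩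
    choose! d hd using hd
    refine ⟨fun a => if l a = n then d a else c a, fun a h1 h2 h3 => ?_⟩
    have hcc : ∀ u, l u < n → c u = (if l u = n then d u else c u) := by
      intro u hu
      rw [if_neg (by omega)]
    have hw : ∀ (v : V) (i : ℕ), i ≤ n → wd ρ l Cut own σ c v i =
        wd ρ l Cut own σ (fun a => if l a = n then d a else c a) v i :=
      fun v i hi => wd_congr hl hl0 hN hC hcc v i hi
    by_cases h4 : l a = n
    · obtain ⟨i, g1, g2, g3⟩ := hd a h4 h2 h3
      refine ⟨i, g1, fun j hj => ?_, ?_⟩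
      · rw [← hw a j (by omega), ← hw (tgt a) j (by omega)]
        exact g2 j hj
      · rw [← hw a i (by omega), ← hw (tgt a) i (by omega)]
        show rk (if l a = n then d a else c a) _ < rk (if l a = n then d a else c a) _
        rw [if_pos h4]
        exact g3
    · obtain ⟨i, g1, g2, g3⟩ := hc a (by omega) h2 h3
      refine ⟨i, g1, fun j hj => ?_, ?_⟩
      · rw [← hw a j (by omega), ← hw (tgt a) j (by omega)]
        exact g2 j hj
      · rw [← hw a i (by omega), ← hw (tgt a) i (by omega)]
        show rk (if l a = n then d a else c a) _ < rk (if l a = n then d a else c a) _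
        rw [if_neg h4]
        exact g3

end words

/-- **[B]** -/
theorem pot {V : Type} [Fintype V] {par p ρ : V → V} {Cut : Set V} {own tgt : V → V} {M : ℕ}
    (h : RS par p ρ Cut own tgt M) : ∃ φ₁ φ₂ : V → Lex (Fin (M + 2) → Fin 10), ∀ v,
      ((p v ≠ v → φ₁ v < φ₁ (p v)) ∧ (par v ≠ v → φ₂ v < φ₂ (par v))) ∨
      ((p v ≠ v → φ₂ v < φ₂ (p v)) ∧ (par v ≠ v → φ₁ v < φ₁ (par v))) := by
  classical
  obtain ⟨l, hlM, hl, hl0⟩ := h.dep.lev
  have hN : ∀ v, v ∉ Cut → own v = v := fun v hv => (h.ncut v hv).2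
  have hC : ∀ v, v ∈ Cut → ρ v ≠ v ∧ own (ρ v) = own v := fun v hv => (h.cut v hv).2
  obtain ⟨σ, hσ⟩ := Pool.Agent.TH87.BD.three (fun v =>
    if v ∉ Cut ∧ l v ≤ l (tgt v) then anc ρ l (l v) (tgt v) else v)
  have hσ' : ∀ a, a ∉ Cut → l a ≤ l (tgt a) → anc ρ l (l a) (tgt a) ≠ a →
      σ a ≠ σ (anc ρ l (l a) (tgt a)) := by
    intro a h1 h2 h3
    have h4 := hσ a
    simp only [h1, h2, not_false_eq_true, and_self, if_true] at h4
    exact h4 h3
  obtain ⟨c, hc⟩ := exists_class (σ := σ) hl hl0 hN hC tgt hσ' (M + 1)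
  set w : V → ℕ → Lt := wd ρ l Cut own σ c with hw
  let Φ : Bool → V → Lex (Fin (M + 2) → Fin 10) := fun b v => toLex fun i => ⟨rk b (w v i), rk_lt _ _⟩
  have lt : ∀ (b : Bool) (u v : V) (i : ℕ), i ≤ M + 1 → (∀ j < i, w u j = w v j) →
      rk b (w u i) < rk b (w v i) → Φ b u < Φ b v := by
    intro b u v i hi h1 h2
    refine ⟨⟨i, by omega⟩, fun j hj => ?_, ?_⟩
    · have hj' : (j : ℕ) < i := hj
      show (⟨rk b (w u j), _⟩ : Fin 10) = ⟨rk b (w v j), _⟩
      rw [Fin.mk.injEq, h1 j hj']
    · show (⟨rk b (w u i), _⟩ : Fin 10) < ⟨rk b (w v i), _⟩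
      exact h2
  -- the arcs of `p`
  have hp : ∀ v, p v ≠ v → Φ (c (own v)) v < Φ (c (own v)) (p v) := by
    intro v hv
    rcases h.arc v hv with ⟨h1, h2⟩ | ⟨y, h1, h2, h3, h4⟩
    · obtain ⟨o1, o2, -⟩ := own_spec (own := own) hl hN hC v
      obtain ⟨i, g1, g2, g3⟩ := hc (own v) (Nat.lt_succ_of_le (hlM _)) o1 (by rw [h1]; exact h2)
      rw [h1] at g2 g3
      have g4 : ∀ j ≤ i, w v j = w (own v) j := fun j hj =>
        wd_anc hl c o2 j (hj.trans g1)
      refine lt _ _ _ i (by have := hlM (own v); omega) (fun j hj => ?_) ?_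
      · rw [g4 j hj.le]; exact g2 j hj
      · rw [g4 i le_rfl]; exact g3
    · have hy := (hC y h1).1
      have e1 := hl y hy
      rw [h2] at e1
      have e2 : ∀ j ≤ l y, w (p v) j = w y j := fun j hj => wd_anc hl c h4 j hj
      refine lt _ _ _ (l y) (by have := hlM y; omega) (fun j hj => ?_) ?_
      · rw [e2 j hj.le]
        have := wd_anc (Cut := Cut) (own := own) (σ := σ) hl c (Anc.step ρ y) j
          (by rw [h2]; omega)
        rw [h2] at this
        exact this.symm
      · rw [e2 _ le_rfl]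
        have e3 : w v (l y) = Lt.E := wd_gt (by omega)
        have e4 : w y (l y) = Lt.H (c (own v)) (σ y) := by
          rw [hw, wd_self, ltr, if_pos h1, h3]
        rw [e3, e4]
        exact rk_E_H _ _
  -- the arcs of `par`
  have hpar : ∀ v, par v ≠ v → Φ (!c (own v)) v < Φ (!c (own v)) (par v) := by
    intro v hv
    by_cases hvC : v ∈ Cut
    · obtain ⟨y, h1, h2, h3, h4⟩ := h.att v hvC
      have hy := (hC y h1).1
      have e1 := hl y hy
      have e2 : ∀ j ≤ l y, w v j = w y j := fun j hj => wd_anc hl c h3 j hj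
      have e4 : w y (l y) = Lt.H (c (own v)) (σ y) := by
        rw [hw, wd_self, ltr, if_pos h1, h2]
      have e5 : ∀ j < l y, w y j = w (ρ y) j := fun j hj =>
        wd_anc hl c (Anc.step ρ y) j (by omega)
      rcases h4 with h4 | ⟨x, g1, g2, g3, g4⟩
      · refine lt _ _ _ (l y) (by have := hlM y; omega) (fun j hj => ?_) ?_
        · rw [e2 j hj.le, e5 j hj, h4]
        · have e6 : w (par v) (l y) = Lt.E := by
            rw [h4]; exact wd_gt (by omega)
          rw [e2 _ le_rfl, e4, e6]
          exact rk_H_E _ _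
      · have hx : ρ x ≠ x := by rw [g2]; exact fun h => g3 h.symm
        have f1 := hl x hx
        rw [g2] at f1
        have f2 : ∀ j ≤ l x, w (par v) j = w x j := fun j hj => wd_anc hl c g4 j hj
        have f5 : ∀ j < l x, w x j = w (ρ y) j := by
          intro j hj
          have := wd_anc (Cut := Cut) (own := own) (σ := σ) hl c (Anc.step ρ x) j
            (by rw [g2]; omega)
          rw [g2] at this
          exact this
        have f6 : l x = l y := by omega
        refine lt _ _ _ (l y) (by have := hlM y; omega) (fun j hj => ?_) ?_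
        · rw [e2 j hj.le, e5 j hj, f2 j (by omega), f5 j (by omega)]
        · have e6 : w x (l y) = Lt.N (σ x) := by
            rw [← f6, hw, wd_self, ltr, if_neg g1]
          rw [e2 _ le_rfl, e4, f2 _ (by omega), e6]
          exact rk_H_N _ _ _
    · have e0 := (h.ncut v hvC).1
      rw [← e0]
      have hv' : ρ v ≠ v := by rw [e0]; exact hv
      have e1 := hl v hv'
      refine lt _ _ _ (l v) (by have := hlM v; omega) (fun j hj => ?_) ?_
      · exact wd_anc hl c (Anc.step ρ v) j (by omega)
      · have e2 : w (ρ v) (l v) = Lt.E := wd_gt (by omega)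
        have e3 : w v (l v) = Lt.N (σ v) := by
          rw [hw, wd_self, ltr, if_neg hvC]
        rw [e2, e3]
        exact rk_N_E _ _
  refine ⟨Φ true, Φ false, fun v => ?_⟩
  have h1 := hp v
  have h2 := hpar v
  cases hcv : c (own v)
  · rw [hcv] at h1 h2
    exact Or.inr ⟨h1, h2⟩
  · rw [hcv] at h1 h2
    exact Or.inl ⟨h1, h2⟩

end Pool.Agent.L7h80.BD
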