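import Pool.Agent.L7h33.BD.Defs
import Pool.Agent.L7h70.BD.RSex
import Pool.Agent.L7h80.BD.Pot
import Pool.Agent.L7h80.BD.Assemble

/-! # The final assembly (helper80, part [E] of helper33's proof of S09049) -/

set_option autoImplicit false

namespace Pool.Agent.L7h80.BD

open SimpleGraph Pool.Agent.TH87.BD Pool.Agent.L7h33.BD

/-- **[E]** -/
theorem final (hA : ThmA)
    (hC : ∀ N m : ℕ, ∃ M, ∀ (V : Type) [Fintype V] (par p : V → V), Dp par N → ChainP par p m →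
      ∃ (ρ : V → V) (Cut : Set V) (own tgt : V → V), RS par p ρ Cut own tgt M) :
    ∀ d : ℕ, 1 ≤ d → ∃ f : ℕ, ∀ (V : Type) [Fintype V] (G F₁ F₂ : SimpleGraph V),
      F₁.IsAcyclic → F₂.IsAcyclic →
      (∀ u v : V, F₂.Reachable u v → F₂.dist u v ≤ d) →
      G = F₁ ⊔ F₂ →
      ∃ H₁ H₂ : SimpleGraph V, H₁ ⊔ H₂ = G ∧ Disjoint H₁ H₂ ∧
        H₁.IsAcyclic ∧ H₂.IsAcyclic ∧
        (∀ u v : V, H₁.Reachable u v → H₁.dist u v ≤ f) ∧
        (∀ u v : V, H₂.Reachable u v → H₂.dist u v ≤ f) := by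
  intro d _
  obtain ⟨N, m, hA⟩ := hA ((d + 1) / 2)
  obtain ⟨M, hC⟩ := hC N m
  refine ⟨2 * Fintype.card (Lex (Fin (M + 2) → Fin 10)), ?_⟩
  intro V _ G F₁ F₂ hF₁ hF₂ hd hG
  obtain ⟨r, hr1, hr2, hr3⟩ := exists_center F₂ hF₂ d hd
  obtain ⟨p₂, lev₂, a1, -, a3, a4⟩ := exists_rooting_at F₂ hF₂ r hr1 hr2
  obtain ⟨p₁, lev₁, b1, -, b3⟩ := exists_rooting F₁ hF₁
  have hsome : ∀ (q : V → Option V) (v : V), (q v).getD v ≠ v → q v = some ((q v).getD v) := by
    intro q v hv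
    cases hq : q v with
    | none => rw [hq] at hv; exact absurd rfl hv
    | some y => rfl
  have hadj : ∀ (q : V → Option V) (F : SimpleGraph V),
      (∀ x y, q x = some y → F.Adj x y) →
      (∀ x y, F.Adj x y → q x = some y ∨ q y = some x) →
      ∀ u v, u ≠ v → (F.Adj u v ↔ (q u).getD u = v ∨ (q v).getD v = u) := by
    intro q F h1 h2 u v huv
    constructor
    · intro h
      rcases h2 u v h with h3 | h3
      · left; rw [h3]; rfl
      · right; rw [h3]; rfl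
    · rintro (h | h)
      · have h3 := hsome q u (by rw [h]; exact huv.symm)
        rw [h] at h3
        exact h1 u v h3
      · have h3 := hsome q v (by rw [h]; exact huv)
        rw [h] at h3
        exact (h1 v u h3).symm
  have hpar : Dp (fun v => (p₂ v).getD v) ((d + 1) / 2) := by
    refine ⟨lev₂, fun v => ?_, fun v hv => ?_⟩
    · rw [a4 v]; exact hr3 v
    · have h1 := (a1 v _ (hsome p₂ v hv)).2
      show lev₂ ((p₂ v).getD v) < lev₂ v
      omega
  have hp : Acy (fun v => (p₁ v).getD v) := by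
    refine ⟨lev₁, fun v hv => ?_⟩
    have h1 := (b1 v _ (hsome p₁ v hv)).2
    show lev₁ ((p₁ v).getD v) < lev₁ v
    omega
  have hinn : Acy (inn (fun v => (p₂ v).getD v) (fun v => (p₁ v).getD v)) := by
    refine hp.mono fun v => ?_
    unfold inn
    split_ifs
    · exact Or.inr rfl
    · exact Or.inl rfl
  obtain ⟨par', p', hRea, hDp', hCh⟩ := hA V _ _ hpar hinn
  obtain ⟨ρ, Cut, own, tgt, hRS⟩ := hC V par' p' hDp' hCh
  obtain ⟨φ₁, φ₂, hφ⟩ := pot hRS
  refine assemble G par' p' (fun u v => ?_) φ₁ φ₂ hφ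
  rw [hG, SimpleGraph.sup_adj]
  constructor
  · intro h
    have hne : u ≠ v := by
      rintro rfl
      rcases h with h | h
      · exact h.ne rfl
      · exact h.ne rfl
    refine ⟨hne, (hRea.edges u v hne).2 ?_⟩
    rw [hadj p₁ F₁ (fun x y h => (b1 x y h).1) b3 u v hne,
      hadj p₂ F₂ (fun x y h => (a1 x y h).1) a3 u v hne] at h
    tauto
  · rintro ⟨hne, h⟩
    rw [hadj p₁ F₁ (fun x y h => (b1 x y h).1) b3 u v hne,
      hadj p₂ F₂ (fun x y h => (a1 x y h).1) a3 u v hne]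
    have h2 := (hRea.edges u v hne).1 h
    tauto

/-- The statement follows from `ThmA`. -/
theorem final' (hA : ThmA) :
    ∀ d : ℕ, 1 ≤ d → ∃ f : ℕ, ∀ (V : Type) [Fintype V] (G F₁ F₂ : SimpleGraph V),
      F₁.IsAcyclic → F₂.IsAcyclic →
      (∀ u v : V, F₂.Reachable u v → F₂.dist u v ≤ d) →
      G = F₁ ⊔ F₂ →
      ∃ H₁ H₂ : SimpleGraph V, H₁ ⊔ H₂ = G ∧ Disjoint H₁ H₂ ∧
        H₁.IsAcyclic ∧ H₂.IsAcyclic ∧
        (∀ u v : V, H₁.Reachable u v → H₁.dist u v ≤ f) ∧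
        (∀ u v : V, H₂.Reachable u v → H₂.dist u v ≤ f) :=
  final hA Pool.Agent.L7h70.BD.exists_RS

end Pool.Agent.L7h80.BD
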