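import Pool.Agent.L7h33.BD.Defs

/-! # Terminal states of forests from terminal states of trees (helper80, part [F] of helper33's
proof of S09049) -/

set_option autoImplicit false

namespace Pool.Agent.L7h80.BD

open Pool.Agent.L7h33.BD

/-- iterates in a subtype -/
theorem anc_sub {V : Type*} {M : V → Prop} {g : {v // M v} → {v // M v}} {f : V → V}
    (h : ∀ v : {v // M v}, f v.1 = (g v).1) (v w : {v // M v}) :
    Anc g v w ↔ Anc f v.1 w.1 := by
  have key : ∀ (n : ℕ) (v : {v // M v}), f^[n] v.1 = (g^[n] v).1 := by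
    intro n
    induction n with
    | zero => intro v; rfl
    | succ n ih =>
      intro v
      rw [Function.iterate_succ_apply, Function.iterate_succ_apply, h v, ih (g v)]
  constructor
  · rintro ⟨n, hn⟩
    exact ⟨n, by rw [key n v, hn]⟩
  · rintro ⟨n, hn⟩
    refine ⟨n, Subtype.ext ?_⟩
    rw [← key n v, hn]

theorem anc_par {V : Type*} {par : V → V} {x v : V} (hx : par x = x) (h : Anc par v x) :
    Anc par (par v) x := by
  rcases h.eq_or with rfl | h
  · rw [hx]; exact Anc.refl _ _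
  · exact h

section glue

variable {V : Type} (par p : V → V)

/-- the forest restricted to the tree of `x` -/
def parT (x : V) (hx : par x = x) : {v // Anc par v x} → {v // Anc par v x} :=
  fun v => ⟨par v.1, anc_par hx v.2⟩

open Classical in
/-- the second forest restricted to the tree of `x` -/
noncomputable def pT (x : V) : {v // Anc par v x} → {v // Anc par v x} :=
  fun v => if h : Anc par (p v.1) x then ⟨p v.1, h⟩ else v

end glue

theorem forTerm_of_treeTerm (h : TreeTerm) : ForTerm := by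
  classical
  intro H
  obtain ⟨N, hN⟩ := h H
  refine ⟨N, ?_⟩
  intro V _ par p hD hA
  obtain ⟨lv, hlv, hlvH⟩ := hD.exists_lv
  -- the roots
  choose rt hrt hrt' using hlv.exists_root
  have huniq : ∀ v y, par y = y → Anc par v y → rt v = y := fun v y hy hv =>
    root_unique (hrt v) (hrt' v) hv hy
  -- terminal states of the trees
  have hT : ∀ x (hx : par x = x), ∃ Sk par' p', Term (parT par x hx) (pT par p x) N Sk par' p' := by
    intro x hx
    refine hN {v // Anc par v x} (parT par x hx) (pT par p x) ⟨x, Anc.refl _ _⟩ ?_ ?_ ?_ ?_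
    · exact Subtype.ext hx
    · intro v
      rw [anc_sub (f := par) (fun _ => rfl)]
      exact v.2
    · obtain ⟨φ, h1, h2⟩ := hD
      refine ⟨fun v => φ v.1, fun v => h1 v.1, fun v hv => h2 v.1 fun h3 => hv (Subtype.ext h3)⟩
    · obtain ⟨φ, h1⟩ := hA
      refine ⟨fun v => φ v.1, fun v hv => ?_⟩
      have h2 : Anc par (p v.1) x := by
        by_contra h3
        exact hv (by unfold pT; rw [dif_neg h3])
      have h4 : (pT par p x v).1 = p v.1 := by unfold pT; rw [dif_pos h2]
      have h5 : inn par p v.1 = p v.1 := by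
        unfold inn
        rw [if_pos ⟨x, hx, v.2, h2⟩]
      have h6 := h1 v.1 (by rw [h5, ← h4]; exact fun h => hv (Subtype.ext h))
      rw [h5] at h6
      show φ (pT par p x v).1 < φ v.1
      rw [h4]
      exact h6
  choose S A B hTm using hT
  -- the glued functions
  let par' : V → V := fun v => (A (rt v) (hrt' v) ⟨v, hrt v⟩).1
  let b : V → V := fun v => (B (rt v) (hrt' v) ⟨v, hrt v⟩).1
  let p' : V → V := fun v => if SameT par v (p v) then b v else p v
  let Sk : Set V := {v | (⟨v, hrt v⟩ : {w // Anc par w (rt v)}) ∈ S (rt v) (hrt' v)}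
  have cA : ∀ (y : V) (hy : par y = y) (v : {v // Anc par v y}), par' v.1 = (A y hy v).1 := by
    rintro y hy ⟨v, hv⟩
    obtain rfl := huniq v y hy hv
    rfl
  have cB : ∀ (y : V) (hy : par y = y) (v : {v // Anc par v y}), b v.1 = (B y hy v).1 := by
    rintro y hy ⟨v, hv⟩
    obtain rfl := huniq v y hy hv
    rfl
  have cS : ∀ (y : V) (hy : par y = y) (v : {v // Anc par v y}), v.1 ∈ Sk ↔ v ∈ S y hy := by
    rintro y hy ⟨v, hv⟩
    obtain rfl := huniq v y hy hv
    exact Iff.rfl
  have hsame : ∀ (y : V) (_ : par y = y) (v : {v // Anc par v y}) (w : V),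
      SameT par v.1 w ↔ Anc par w y := by
    intro y hy v w
    constructor
    · rintro ⟨r, hr, h1, h2⟩
      rwa [root_unique h1 hr v.2 hy] at h2
    · intro h1
      exact ⟨y, hy, v.2, h1⟩
  have hp1 : ∀ (y : V) (hy : par y = y) (v : {v // Anc par v y}), Anc par (p v.1) y →
      p' v.1 = (B y hy v).1 := by
    intro y hy v h1
    rw [← cB y hy v]
    exact if_pos ((hsame y hy v _).2 h1)
  have hp2 : ∀ (y : V) (hy : par y = y) (v : {v // Anc par v y}), ¬ Anc par (p v.1) y →
      p' v.1 = p v.1 := by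
    intro y hy v h1
    exact if_neg fun h2 => h1 ((hsame y hy v _).1 h2)
  have hT1 : ∀ (y : V) (v : {v // Anc par v y}), Anc par (p v.1) y →
      (pT par p y v).1 = p v.1 := by
    intro y v h1
    unfold pT
    rw [dif_pos h1]
  have hT2 : ∀ (y : V) (v : {v // Anc par v y}), ¬ Anc par (p v.1) y →
      pT par p y v = v := by
    intro y v h1
    unfold pT
    rw [dif_neg h1]
  have hB2 : ∀ (y : V) (hy : par y = y) (v : {v // Anc par v y}), ¬ Anc par (p v.1) y →
      B y hy v = v := by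
    intro y hy v h1
    exact ((hTm y hy).rea.pfix v).2 (hT2 y v h1)
  have hBne : ∀ (y : V) (hy : par y = y) (v : {v // Anc par v y}), B y hy v ≠ v →
      p' v.1 = (B y hy v).1 := by
    intro y hy v h1
    refine hp1 y hy v ?_
    by_contra h2
    exact h1 (hB2 y hy v h2)
  -- par' preserves the trees
  have hrtpar' : ∀ v, rt (par' v) = rt v := by
    intro v
    refine huniq _ _ (hrt' v) ?_
    exact (A (rt v) (hrt' v) ⟨v, hrt v⟩).2
  have hrtanc : ∀ v w, Anc par' v w → rt w = rt v := by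
    rintro v w ⟨n, rfl⟩
    induction n with
    | zero => rfl
    | succ n ih => rw [Function.iterate_succ_apply', hrtpar', ih]
  have hancA : ∀ (y : V) (hy : par y = y) (v w : {v // Anc par v y}),
      Anc (A y hy) v w ↔ Anc par' v.1 w.1 := fun y hy v w => anc_sub (cA y hy) v w
  -- the cut forest
  have hcut : ∀ (y : V) (hy : par y = y) (v : {v // Anc par v y}),
      cutf par Sk v.1 = (cutf (parT par y hy) (S y hy) v).1 := by
    intro y hy v
    unfold cutf
    by_cases h1 : v ∈ S y hy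
    · rw [if_pos h1, if_pos ((cS y hy v).2 h1)]
    · rw [if_neg h1, if_neg fun h2 => h1 ((cS y hy v).1 h2)]
      rfl
  have hrtcut : ∀ v, rt (cutf par Sk v) = rt v := by
    intro v
    refine huniq _ _ (hrt' v) ?_
    have h1 := hcut (rt v) (hrt' v) ⟨v, hrt v⟩
    rw [h1]
    exact (cutf (parT par (rt v) (hrt' v)) (S (rt v) (hrt' v)) ⟨v, hrt v⟩).2
  have hrtcanc : ∀ v w, Anc (cutf par Sk) v w → rt w = rt v := by
    rintro v w ⟨n, rfl⟩
    induction n with
    | zero => rfl
    | succ n ih => rw [Function.iterate_succ_apply', hrtcut, ih]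
  have hmem : ∀ v w, rt w = rt v → Anc par w (rt v) := by
    intro v w h1
    rw [← h1]
    exact hrt w
  refine ⟨Sk, par', p', ⟨⟨?_, ?_, ?_, ?_, ?_, ?_⟩, ?_, ?_, ?_, ?_, ?_, ?_, ?_⟩⟩
  · -- fix
    intro v
    have h1 := (hTm (rt v) (hrt' v)).rea.fix ⟨v, hrt v⟩
    rw [Subtype.ext_iff, Subtype.ext_iff] at h1
    exact h1
  · -- same
    intro v
    exact ⟨rt v, hrt' v, hrt v, (A (rt v) (hrt' v) ⟨v, hrt v⟩).2⟩
  · -- pfix
    intro v
    by_cases h1 : Anc par (p v) (rt v)
    · have h2 := (hTm (rt v) (hrt' v)).rea.pfix ⟨v, hrt v⟩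
      rw [Subtype.ext_iff, Subtype.ext_iff, hT1 (rt v) ⟨v, hrt v⟩ h1] at h2
      rw [hp1 (rt v) (hrt' v) ⟨v, hrt v⟩ h1]
      exact h2
    · rw [hp2 (rt v) (hrt' v) ⟨v, hrt v⟩ h1]
  · -- pout
    intro v h1
    exact if_neg h1
  · -- pin
    intro v h1
    have h2 := (hsame (rt v) (hrt' v) ⟨v, hrt v⟩ _).1 h1
    rw [hp1 (rt v) (hrt' v) ⟨v, hrt v⟩ h2]
    exact ⟨rt v, hrt' v, hrt v, (B (rt v) (hrt' v) ⟨v, hrt v⟩).2⟩
  · -- edges
    intro u v huv
    by_cases hr : rt u = rt v
    · have hv : Anc par v (rt u) := hmem u v hr.symm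
      set y := rt u with hy
      have hyy : par y = y := hrt' u
      have e := (hTm y hyy).rea.edges ⟨u, hrt u⟩ ⟨v, hv⟩ fun h1 => huv (congrArg Subtype.val h1)
      have e1 : ∀ s t : {w // Anc par w y}, (par' s.1 = t.1 ↔ A y hyy s = t) := by
        intro s t
        rw [cA y hyy s, Subtype.ext_iff]
      have e2 : ∀ s t : {w // Anc par w y}, s ≠ t → (p' s.1 = t.1 ↔ B y hyy s = t) := by
        intro s t hst
        by_cases h1 : Anc par (p s.1) y
        · rw [hp1 y hyy s h1, Subtype.ext_iff]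
        · rw [hp2 y hyy s h1, hB2 y hyy s h1]
          refine ⟨fun h2 => ?_, fun h2 => absurd h2 hst⟩
          rw [h2] at h1
          exact absurd t.2 h1
      have e3 : ∀ s t : {w // Anc par w y}, (par s.1 = t.1 ↔ parT par y hyy s = t) := by
        intro s t
        rw [Subtype.ext_iff]
        exact Iff.rfl
      have e4 : ∀ s t : {w // Anc par w y}, s ≠ t → (p s.1 = t.1 ↔ pT par p y s = t) := by
        intro s t hst
        by_cases h1 : Anc par (p s.1) y
        · rw [Subtype.ext_iff, hT1 y s h1]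
        · rw [hT2 y s h1]
          refine ⟨fun h2 => ?_, fun h2 => absurd h2 hst⟩
          rw [h2] at h1
          exact absurd t.2 h1
      have hne : (⟨u, hrt u⟩ : {w // Anc par w y}) ≠ ⟨v, hv⟩ :=
        fun h1 => huv (congrArg Subtype.val h1)
      have f1 := e1 ⟨u, hrt u⟩ ⟨v, hv⟩
      have f2 := e1 ⟨v, hv⟩ ⟨u, hrt u⟩
      have f3 := e2 ⟨u, hrt u⟩ ⟨v, hv⟩ hne
      have f4 := e2 ⟨v, hv⟩ ⟨u, hrt u⟩ hne.symm
      have g1 := e3 ⟨u, hrt u⟩ ⟨v, hv⟩
      have g2 := e3 ⟨v, hv⟩ ⟨u, hrt u⟩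
      have g3 := e4 ⟨u, hrt u⟩ ⟨v, hv⟩ hne
      have g4 := e4 ⟨v, hv⟩ ⟨u, hrt u⟩ hne.symm
      simp only at f1 f2 f3 f4 g1 g2 g3 g4
      rw [f1, f2, f3, f4, g1, g2, g3, g4]
      exact e
    · have q1 : ∀ s t, rt s ≠ rt t → par' s ≠ t := by
        intro s t hst h1
        exact hst (by rw [← h1, hrtpar'])
      have q2 : ∀ s t, rt s ≠ rt t → par s ≠ t := by
        intro s t hst h1
        refine hst ?_
        rw [← h1]
        exact (huniq _ _ (hrt' s) (anc_par (hrt' s) (hrt s))).symm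
      have q3 : ∀ s t, rt s ≠ rt t → (p' s = t ↔ p s = t) := by
        intro s t hst
        by_cases h1 : Anc par (p s) (rt s)
        · have h2 : rt (p' s) = rt s := by
            rw [hp1 (rt s) (hrt' s) ⟨s, hrt s⟩ h1]
            exact huniq _ _ (hrt' s) (B (rt s) (hrt' s) ⟨s, hrt s⟩).2
          have h3 : rt (p s) = rt s := huniq _ _ (hrt' s) h1
          constructor
          · intro h4
            exact absurd (by rw [← h4, h2]) hst
          · intro h4
            exact absurd (by rw [← h4, h3]) hst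
        · rw [hp2 (rt s) (hrt' s) ⟨s, hrt s⟩ h1]
      have hr' : rt v ≠ rt u := fun h1 => hr h1.symm
      have a1 := q1 u v hr
      have a2 := q1 v u hr'
      have a3 := q2 u v hr
      have a4 := q2 v u hr'
      rw [q3 u v hr, q3 v u hr']
      tauto
  · -- dp
    have hφ : ∀ y (hy : par y = y), ∃ φ : {v // Anc par v y} → ℕ, (∀ v, φ v ≤ N) ∧
        ∀ v, A y hy v ≠ v → φ (A y hy v) < φ v := fun y hy => (hTm y hy).dp
    choose φ hφ1 hφ2 using hφ
    let ψ : V → ℕ := fun v => φ (rt v) (hrt' v) ⟨v, hrt v⟩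
    have cψ : ∀ (y : V) (hy : par y = y) (v : {v // Anc par v y}), ψ v.1 = φ y hy v := by
      rintro y hy ⟨v, hv⟩
      obtain rfl := huniq v y hy hv
      rfl
    refine ⟨ψ, fun v => hφ1 _ _ _, fun v hv => ?_⟩
    have h1 := hφ2 (rt v) (hrt' v) ⟨v, hrt v⟩ fun h2 => hv (congrArg Subtype.val h2)
    rw [← cψ, ← cψ, ← cA] at h1
    exact h1
  · -- root
    intro v hv
    exact (hTm (rt v) (hrt' v)).root ⟨v, hrt v⟩ (Subtype.ext hv)
  · -- up
    intro v hv
    have h1 := (hTm (rt v) (hrt' v)).up ⟨v, hrt v⟩ hv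
    rw [← cS] at h1
    exact h1
  · -- off
    intro v hv
    have h1 := (hTm (rt v) (hrt' v)).off ⟨v, hrt v⟩ hv
    exact congrArg Subtype.val h1
  · -- up'
    intro v hv
    have h1 := (hTm (rt v) (hrt' v)).up' ⟨v, hrt v⟩ hv
    rw [← cS, ← cA] at h1
    exact h1
  · -- chain
    intro a ha hpa hanc
    set y := rt a with hydef
    have hy : par y = y := hrt' a
    have hpa' : Anc par (p a) y := by
      by_contra h1
      rw [hp2 y hy ⟨a, hrt a⟩ h1] at hanc
      exact h1 (hmem a (p a) (hrtanc _ _ hanc).symm)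
    have h2 := hp1 y hy ⟨a, hrt a⟩ hpa'
    simp only at h2
    have h3 : B y hy ⟨a, hrt a⟩ ≠ ⟨a, hrt a⟩ := fun h4 => hpa (by rw [h2, h4])
    have h4 : Anc (A y hy) (B y hy ⟨a, hrt a⟩) ⟨a, hrt a⟩ := by
      rw [hancA, ← h2]
      exact hanc
    obtain ⟨j, hj, x, hx0, hx1, hx2, hx3⟩ := (hTm y hy).chain ⟨a, hrt a⟩ ha h3 h4
    refine ⟨j, hj, fun i => (x i).1, congrArg Subtype.val hx0, fun i hi => (cS y hy _).2 (hx1 i hi),
      fun i hi => ?_, ?_⟩
    · obtain ⟨k1, k2, k3, k4⟩ := hx2 i hi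
      have k5 := hBne y hy (x i) k1
      rw [hancA] at k2 k3
      refine ⟨fun k6 => k1 (Subtype.ext (by rw [← k5, k6])), ?_, k3,
        fun k6 => k4 (Subtype.ext k6)⟩
      show Anc par' (p' (x i).1) _
      rw [k5]
      exact k2
    · by_cases k1 : Anc par (p (x j).1) y
      · have k2 := hp1 y hy (x j) k1
        show p' (x j).1 = (x j).1 ∨ ¬ Anc par' (p' (x j).1) a
        rw [k2]
        rcases hx3 with k3 | k3
        · left; rw [k3]
        · right
          rw [hancA] at k3
          exact k3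
      · right
        show ¬ Anc par' (p' (x j).1) a
        rw [hp2 y hy (x j) k1]
        intro k2
        exact k1 (hmem a _ (hrtanc _ _ k2).symm)
  · -- acyc
    have hφ := fun y hy => (hTm y hy).acyc
    choose φ hφ using hφ
    let ψ : V → ℕ := fun v => φ (rt v) (hrt' v) ⟨v, hrt v⟩
    have cψ : ∀ (y : V) (hy : par y = y) (v : {v // Anc par v y}), ψ v.1 = φ y hy v := by
      rintro y hy ⟨v, hv⟩
      obtain rfl := huniq v y hy hv
      rfl
    refine ⟨ψ, fun v hv => ?_⟩
    rintro ⟨u, hu, hvu, hpu⟩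
    set y := rt v with hydef
    have hy : par y = y := hrt' v
    have hur : rt u = y := hrtcanc _ _ hvu
    have hpr : rt (p' v) = y := by rw [← hrtcanc _ _ hpu, hur]
    have hpv : Anc par (p v) y := by
      by_contra h1
      rw [hp2 y hy ⟨v, hrt v⟩ h1] at hpr
      exact h1 (hmem v _ hpr)
    have h2 := hp1 y hy ⟨v, hrt v⟩ hpv
    simp only at h2
    have huy : Anc par u y := hmem v u hur
    have h3 := hφ y hy ⟨v, hrt v⟩ (fun h4 => hv (by rw [h2, h4])) ⟨⟨u, huy⟩, (cS y hy _).1 hu, ?_, ?_⟩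
    · rw [← cψ, ← cψ, ← h2] at h3
      exact h3
    · rw [anc_sub (hcut y hy)]
      exact hvu
    · rw [anc_sub (hcut y hy), ← h2]
      exact hpu

end Pool.Agent.L7h80.BD
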